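import Pool.Agent.H.MP_f6b51f_lc.E

set_option autoImplicit false
open Pointwise Equiv

namespace Pool.Agent.Results.MP_f6b51f_lc.Yes
open Pool.Agent.H.MP_f6b51f_lc

theorem result (A : Type) [Nonempty A] (E : Set (Tm (A ⊕ ℕ) × Tm (A ⊕ ℕ)))
    (hE : ∀ t u, Deriv E t u ↔ Valid t u) :
    {e ∈ E | ∃ i j : ℕ, i ≠ j ∧ Sum.inr i ∈ e.1.atoms ∪ e.2.atoms ∧ Sum.inr j ∈ e.1.atoms ∪ e.2.atoms}.Infinite := by
  intro hF
  have : ∀ e : Tm (A ⊕ ℕ) × Tm (A ⊕ ℕ), ∃ S : Set (Tm (A ⊕ ℕ)), e ∈ E → S.Finite ∧ ∃ R, Sim R ∧ R e.1 e.2 ∧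
      ∀ x y, R x y → y ∈ S := fun e => by
    by_cases h : e ∈ E
    · exact (valid_sim ((hE _ _).1 (bind_id e.1 ▸ bind_id e.2 ▸ Deriv.ax (t := e.1) (u := e.2) _ h))).imp
        fun _ a _ => a
    · exact ⟨∅, fun a => (h a).elim⟩
  choose S hS using this
  obtain ⟨n, hn⟩ := (hF.image fun e => (S e).ncard).bddAbove
  obtain ⟨p, h5, hp⟩ := Nat.exists_infinite_primes (n + 5)
  obtain ⟨m, rfl⟩ : ∃ m, p = m + 2 := ⟨p - 2, by omega⟩
  let N := alternatingGroup (Fin (m + 2))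
  have hN : N ≠ ⊥ := fun c => mv (m := m) 0 (by
    rw [Subgroup.mem_bot.1 (c.le (ev hp (by omega)))]; rfl)
  have hc : N ≤ ⁅N, N⁆ := (commutator_alternatingGroup_eq_self (by simp; omega)).ge
  have ax (k : A ⊕ ℕ → Set (Perm (Fin (m + 2)))) (v) (hk : ∀ a, k (.inl a) = 1) (e) (he : e ∈ E) :
      K k e.1 = K k e.2 ∧ (V N k v e.1 ↔ V N k v e.2) := by
    obtain ⟨f, R, hR, r, hr⟩ := hS e he
    have a {t u} (r : R t u) : K k t ⊆ K k u := fun g h => by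
      obtain ⟨_, h, ⟨⟩⟩ := (K_iff.1 h).sim hR (.some r); exact K_iff.2 h
    have b {t u} (r : R t u) (ht : t.atoms ⊆ e.1.atoms ∪ e.2.atoms) (h : V N k v t) : V N k v u := by
      refine (V_iff hN).2 (inv_V hR f hr r hN hc ?_ ((V_iff hN).1 h))
      by_cases c : ∃ i j : ℕ, i ≠ j ∧ Sum.inr i ∈ e.1.atoms ∪ e.2.atoms ∧ Sum.inr j ∈ e.1.atoms ∪ e.2.atoms
      · exact .inl (P2 hp (by omega) f (by have := hn ⟨e, ⟨he, c⟩, rfl⟩; simp only at this; omega))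
      by_cases d : ∃ i, Sum.inr i ∈ e.1.atoms ∪ e.2.atoms
      · obtain ⟨i, d⟩ := d
        refine .inr ⟨k (.inr i), ?_⟩
        rintro (b | j) h
        exacts [.inl (hk b), .inr (by rw [not_not.1 fun x : ¬ j = i => c ⟨j, i, x, ht h, d⟩])]
      · refine .inr ⟨1, ?_⟩
        rintro (b | j) h
        exacts [.inl (hk b), (d ⟨j, ht h⟩).elim]
    exact ⟨(a r).antisymm (a (hR.1 _ _ r)), b r Set.subset_union_left, b (hR.1 _ _ r) Set.subset_union_right⟩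
  have sound {t u} (h : Deriv E t u) : K (kk m) t = K (kk m) u ∧
      (V N (kk m) (fun _ => False) t ↔ V N (kk m) (fun _ => False) u) := by
    induction h with
    | ax τ h => rw [K_bind, K_bind, V_bind, V_bind]; exact ax _ _ (fun _ => rfl) _ h
    | refl => exact ⟨rfl, .rfl⟩
    | symm _ ih => exact ⟨ih.1.symm, ih.2.symm⟩
    | trans _ _ a b => exact ⟨a.1.trans b.1, a.2.trans b.2⟩
    | _ _ _ a b => simp [K, V, a.1, a.2, b.1, b.2]
  refine notV hp (by omega) ((sound ((hE _ _).2 (val m))).2.2 (.inr (.inr ?_)))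
  rw [Kz, Perm.closure_cycle_adjacent_swap isCycle_finRotate support_finRotate]
  exact le_top

end Pool.Agent.Results.MP_f6b51f_lc.Yes
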